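import Pool.Agent.H31.FB

namespace Pool.Agent.Results.MP_c47b4a_al.Main

theorem result (A B Q : Type) [Semigroup Q]
    (f : FreeSemigroup A →ₙ* Q) (g : FreeSemigroup B →ₙ* Q) (hg : Function.Surjective g)
    (S : Subsemigroup (FreeSemigroup A × FreeSemigroup B)) (hS : ∀ p, p ∈ S ↔ f p.1 = g p.2)
    (fg : ∃ T : Set (FreeSemigroup A × FreeSemigroup B),
      T.Finite ∧ Subsemigroup.closure T = S) :
    ∃ (X : Type) (_ : Finite X) (R : Set (FreeSemigroup X × FreeSemigroup X)), R.Finite ∧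
      Nonempty ((conGen fun a b => (a, b) ∈ R).Quotient ≃* S) :=
  fg.elim fun T h => Pool.Agent.H31.FB.main A B Q f g hg S hS T h.1 h.2

end Pool.Agent.Results.MP_c47b4a_al.Main
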